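import Mathlib

set_option autoImplicit false

namespace Pool.Agent.H.MP_ccba9a_nt
open Finset Complex MeasureTheory

lemma gauss (p : ℕ) [Fact p.Prime] (a b : ZMod p) (hb : 2 * b ≠ 0) :
    ‖∑ z : ZMod p, ZMod.stdAddChar (a * z + b * z ^ 2)‖ = √p := by
  set S := ∑ z : ZMod p, ZMod.stdAddChar (a * z + b * z ^ 2) with hS
  have h1 : S * (starRingEnd ℂ) S = p := by
    rw [hS, map_sum, mul_sum]
    have h2 : ∀ y : ZMod p, (∑ z : ZMod p, ZMod.stdAddChar (a * z + b * z ^ 2)) *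
        (starRingEnd ℂ) (ZMod.stdAddChar (a * y + b * y ^ 2)) =
        ∑ h : ZMod p, ZMod.stdAddChar (a * h + b * h ^ 2) * ZMod.stdAddChar (y * (2 * b * h)) := by
      intro y
      rw [← AddChar.map_neg_eq_conj, sum_mul, ← Equiv.sum_comp (Equiv.addRight y)]
      apply sum_congr rfl
      intro h _
      rw [← AddChar.map_add_eq_mul, ← AddChar.map_add_eq_mul, Equiv.coe_addRight]
      congr 1
      ring
    simp only [h2]
    rw [sum_comm]
    simp only [← mul_sum, AddChar.sum_mulShift _ (ZMod.isPrimitive_stdAddChar p)]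
    rw [sum_eq_single 0]
    · simp
    · intro h _ hh
      rw [if_neg (mul_ne_zero hb hh)]
      simp
    · simp
  rw [mul_conj, ← ofReal_natCast, ofReal_inj, normSq_eq_norm_sq] at h1
  rw [← h1, Real.sqrt_sq (norm_nonneg _)]

lemma ex_sub (a b : ℝ) : ‖exp (I * a) - exp (I * b)‖ ≤ |a - b| := by
  have : exp (I * a) - exp (I * b) = exp (I * b) * (exp (I * (a - b : ℝ)) - 1) := by
    rw [mul_sub, ← exp_add]; push_cast; congr 2 <;> ring
  rw [this, norm_mul, norm_exp_I_mul_ofReal, one_mul]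
  exact Real.norm_exp_I_mul_ofReal_sub_one_le

lemma abel (ψ g : ℕ → ℂ) (N : ℕ) : ∑ x ∈ range N, ψ x * g x = (∑ x ∈ range N, ψ x) * g N -
    ∑ x ∈ range N, (∑ y ∈ range (x + 1), ψ y) * (g (x + 1) - g x) := by
  induction N with
  | zero => simp
  | succ N ih => rw [sum_range_succ, ih, sum_range_succ (fun x => _ * (g (x + 1) - g x)),
      sum_range_succ ψ]; ring

lemma per_bd (ψ : ℕ → ℂ) (p : ℕ) (hp : 0 < p) (h1 : ∀ x, ψ (x + p) = ψ x)
    (h2 : ∑ x ∈ range p, ψ x = 0) (h3 : ∀ x, ‖ψ x‖ ≤ 2) (n : ℕ) :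
    ‖∑ x ∈ range n, ψ x‖ ≤ 2 * p := by
  have h4 : Function.Periodic (fun n => ∑ x ∈ range n, ψ x) p := by
    intro n
    induction n with
    | zero => simpa using h2
    | succ n ih =>
      simp only at ih ⊢
      rw [Nat.add_right_comm, sum_range_succ, sum_range_succ, ih, h1]
  have h5 := h4.map_mod_nat n
  rw [← h5]
  refine (norm_sum_le _ _).trans ((sum_le_card_nsmul _ _ 2 (fun x _ => h3 x)).trans ?_)
  have : ((n % p : ℕ) : ℝ) ≤ p := by exact_mod_cast (Nat.mod_lt n hp).le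
  rw [card_range, nsmul_eq_mul]
  linarith

noncomputable def F (X : ℕ) (α : Fin 2 → ℝ) : ℂ := ∑ x ∈ Finset.Icc 1 X,
  exp (2 * (Real.pi : ℂ) * I * ∑ j : Fin 2, (α j : ℂ) * (x : ℂ) ^ ((j : ℕ) + 1))

lemma lower (p a b X : ℕ) (hp : p.Prime) (hp2 : 2 < p) (hb : 0 < b) (hb' : b < p) (hX : 1 ≤ X)
    (α : Fin 2 → ℝ) (u v : ℝ) (hu : 0 ≤ u) (hv : 0 ≤ v) (hu' : u * X ≤ 1 / 100)
    (hv' : v * X ^ 2 ≤ 1 / 100) (h0 : α 0 = a / p + u) (h1 : α 1 = b / p + v) :
    X / (2 * √p) - 4 * p ≤ ‖F X α‖ := by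
  haveI := Fact.mk hp
  haveI : NeZero p := ⟨hp.ne_zero⟩
  have hX' : (1 : ℝ) ≤ X := by exact_mod_cast hX
  have hp' : (1 : ℝ) ≤ p := by exact_mod_cast hp.pos
  set h : ZMod p → ℂ := fun z => ZMod.stdAddChar ((a : ZMod p) * z + (b : ZMod p) * z ^ 2) with hh
  set θ : ℕ → ℝ := fun x => 2 * Real.pi * (u * (x + 1) + v * (x + 1) ^ 2) with hθ
  set g : ℕ → ℂ := fun x => exp (I * θ x) with hg
  set S := ∑ z, h z with hS
  have hS1 : ‖S‖ = √p := gauss p a b (by
    have : ((2 * b : ℕ) : ZMod p) ≠ 0 := by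
      rw [Ne, ZMod.natCast_eq_zero_iff]
      intro e
      rcases (Nat.Prime.dvd_mul hp).mp e with e | e <;> have := Nat.le_of_dvd (by omega) e <;> omega
    exact_mod_cast this)
  have hs0 : 0 < √(p : ℝ) := Real.sqrt_pos.mpr (by linarith)
  have hs1 : √(p : ℝ) * √p = p := Real.mul_self_sqrt (by linarith)
  have hs2 : 1 ≤ √(p : ℝ) := Real.one_le_sqrt.mpr hp'
  set ψ : ℕ → ℂ := fun x => h ((x : ZMod p) + 1) - S / p with hψ
  have e1 : F X α = ∑ x ∈ range X, ψ x * g x + S / p * ∑ x ∈ range X, g x := by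
    rw [F, mul_sum, ← sum_add_distrib, range_eq_Ico, ← Ico_add_one_right_eq_Icc,
      ← sum_Ico_add' _ 0 X 1]
    apply sum_congr rfl
    intro x _
    have e2 := ZMod.stdAddChar_coe (N := p) ((a : ℤ) * (x + 1) + b * (x + 1) ^ 2)
    push_cast at e2
    simp only [hψ, hh, hg, hθ, e2, Fin.sum_univ_two, h0, h1]
    rw [sub_mul, sub_add_cancel, ← exp_add]
    congr 1
    push_cast
    simp only [Fin.val_zero, Fin.val_one]
    ring
  have hSp : ‖S / p‖ = 1 / √p := by
    rw [norm_div, hS1, norm_natCast, div_eq_div_iff (by linarith) hs0.ne', hs1, one_mul]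
  have hP := per_bd ψ p hp.pos (fun x => by simp [hψ]) (by
    have e2 : ∑ x ∈ range p, h ((x : ZMod p) + 1) = S := by
      rw [hS, ← Equiv.sum_comp (Equiv.addRight (1 : ZMod p))]
      refine sum_nbij' (fun x => (x : ZMod p)) ZMod.val (by simp) (fun z _ => ?_) (fun x hx => ?_)
        (fun z _ => by simp) (fun x _ => rfl)
      · exact mem_range.mpr (ZMod.val_lt z)
      · exact ZMod.val_cast_of_lt (mem_range.mp hx)
    have e3 : (p : ℂ) ≠ 0 := by exact_mod_cast hp.ne_zero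
    simp only [hψ, sum_sub_distrib, e2, sum_const, card_range, nsmul_eq_mul]
    field_simp
    ring) (fun x => by
      refine (norm_sub_le _ _).trans ?_
      have : 1 / √(p : ℝ) ≤ 1 := by rwa [div_le_one hs0]
      rw [hSp, hh, AddChar.norm_apply]
      linarith)
  have hpi := Real.pi_le_four
  have hpi0 := Real.pi_pos
  have hE : ‖∑ x ∈ range X, ψ x * g x‖ ≤ 4 * p := by
    rw [abel]
    refine (norm_sub_le _ _).trans ?_
    have h2 : ‖(∑ x ∈ range X, ψ x) * g X‖ ≤ 2 * p := by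
      rw [norm_mul, hg, norm_exp_I_mul_ofReal, mul_one]; exact hP X
    have h3 := (norm_sum_le _ _).trans (sum_le_card_nsmul (range X)
      (fun x => ‖(∑ y ∈ range (x + 1), ψ y) * (g (x + 1) - g x)‖) (2 * p * (1 / X)) (fun x hx => by
        rw [norm_mul]
        refine mul_le_mul (hP _) ((ex_sub _ _).trans ?_) (norm_nonneg _) (by positivity)
        have h4 : (x : ℝ) + 1 ≤ X := by exact_mod_cast mem_range.mp hx
        have e : θ (x + 1) - θ x = 2 * Real.pi * (u + v * (2 * x + 3)) := by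
          simp only [hθ]; push_cast; ring
        rw [e, abs_of_nonneg (by positivity), le_div_iff₀ (by linarith)]
        have h5 : v * (2 * x + 3) * X ≤ v * (3 * X) * X := by gcongr; linarith
        have h6 : (u + v * (2 * x + 3)) * X ≤ 1 / 25 := by nlinarith
        have h7 : 0 ≤ (u + v * (2 * x + 3)) * X := by positivity
        nlinarith))
    rw [card_range, nsmul_eq_mul] at h3
    have e : (X : ℝ) * (2 * p * (1 / X)) = 2 * p := by field_simp
    linarith
  have hG : (X : ℝ) / 2 ≤ ‖∑ x ∈ range X, g x‖ := by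
    have h2 := (norm_sum_le _ _).trans (sum_le_card_nsmul (range X)
      (fun x => ‖g x - 1‖) (1 / 2) (fun x hx => by
        refine Real.norm_exp_I_mul_ofReal_sub_one_le.trans ?_
        have h4 : (x : ℝ) + 1 ≤ X := by exact_mod_cast mem_range.mp hx
        have h5 : u * (x + 1) + v * (x + 1) ^ 2 ≤ u * X + v * X ^ 2 := by gcongr
        have h6 : 0 ≤ u * (x + 1) + v * (x + 1) ^ 2 := by positivity
        rw [hθ, Real.norm_of_nonneg (by positivity)]
        nlinarith))
    rw [card_range, nsmul_eq_mul, sum_sub_distrib, sum_const, card_range, nsmul_one] at h2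
    have h3 := norm_sub_norm_le (X : ℂ) (∑ x ∈ range X, g x)
    rw [norm_natCast, norm_sub_rev] at h3
    linarith
  have h2 := norm_sub_norm_le (S / p * ∑ x ∈ range X, g x) (-∑ x ∈ range X, ψ x * g x)
  rw [sub_neg_eq_add, add_comm, ← e1, norm_neg, norm_mul, hSp] at h2
  have h3 : X / (2 * √p) = 1 / √p * ((X : ℝ) / 2) := by field_simp
  have h4 := mul_le_mul_of_nonneg_left hG (by positivity : 0 ≤ 1 / √(p : ℝ))
  linarith

end Pool.Agent.H.MP_ccba9a_nt
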