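import Pool.Agent.H.MP_ccba9a_nt.A

set_option autoImplicit false

namespace Pool.Agent.H.MP_ccba9a_nt
open Finset MeasureTheory

def box (l w : Fin 2 → ℝ) : Set (Fin 2 → ℝ) := Set.pi Set.univ (fun j => Set.Ico (l j) (l j + w j))

lemma box_meas (l w : Fin 2 → ℝ) : MeasurableSet (box l w) :=
  MeasurableSet.univ_pi fun _ => measurableSet_Ico

lemma box_vol (l w : Fin 2 → ℝ) (h0 : 0 ≤ w 0) (h1 : 0 ≤ w 1) :
    volume.real (box l w) = w 0 * w 1 := by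
  rw [measureReal_def, box, Real.volume_pi_Ico_toReal]
  · simp
  · intro j
    fin_cases j <;> simpa

lemma mem_box {l w α : Fin 2 → ℝ} : α ∈ box l w ↔
    (l 0 ≤ α 0 ∧ α 0 < l 0 + w 0) ∧ (l 1 ≤ α 1 ∧ α 1 < l 1 + w 1) := by
  simp only [box, Set.mem_univ_pi, Fin.forall_fin_two, Set.mem_Ico]

lemma cross {a b p q : ℕ} {t x : ℝ} (hp : 0 < p) (hq : 0 < q) (ht : t * (p * q) ≤ 1)
    (h1 : (a : ℝ) / p ≤ x) (h2 : x < b / q + t) : a * q ≤ b * p := by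
  have h3 : (0 : ℝ) < p := by exact_mod_cast hp
  have h4 : (0 : ℝ) < q := by exact_mod_cast hq
  have h5 := mul_lt_mul_of_pos_right (h1.trans_lt h2) (mul_pos h3 h4)
  have e1 : (a : ℝ) / p * (p * q) = a * q := by field_simp
  have e2 : ((b : ℝ) / q + t) * (p * q) = b * p + t * (p * q) := by field_simp
  have h6 : (a : ℝ) * q < b * p + 1 := by linarith
  have h7 : a * q < b * p + 1 := by exact_mod_cast h6
  omega

lemma exB (Q K : ℕ) (hK : 2 ≤ K) (hK' : 2 * K ≤ Q.primeCounting) (δ : ℝ) (h0 : 0 ≤ δ) (h1 : δ ≤ 1)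
    (L : ℝ) (hL0 : 0 ≤ L) (hL : L ≤ (Q : ℝ) ^ 2 / (2 * √Q) - 4 * Q) (r : ℝ) (hr : 0 ≤ r) :
    ∃ B : Set (Fin 2 → ℝ), MeasurableSet B ∧ B ⊆ Set.pi Set.univ (fun _ => Set.Ico (0 : ℝ) 1) ∧
      δ ≤ volume.real B ∧ volume.real B ≤ δ + 1 / (Q : ℝ) ^ 3 ∧
      L ^ r * ((K : ℝ) ^ 3 / (10000 * (Q : ℝ) ^ 6)) ≤ ∫ α in B, ‖F (Q ^ 2) α‖ ^ r := by
  set P := (Nat.primesLE Q).filter (fun p => K < p) with hP
  have hP1 : ∀ p ∈ P, p.Prime ∧ K < p ∧ p ≤ Q := fun p hp => by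
    simp only [hP, mem_filter, Nat.mem_primesLE] at hp
    exact ⟨hp.1.2, hp.2, hp.1.1⟩
  have hP2 : K ≤ P.card := by
    have h2 := card_filter_add_card_filter_not (s := Nat.primesLE Q) (fun p => K < p)
    have h3 : ((Nat.primesLE Q).filter (fun p => ¬ K < p)).card ≤ (Ioc 0 K).card := by
      apply card_le_card
      intro p hp
      simp only [mem_filter, Nat.mem_primesLE, mem_Ioc] at hp ⊢
      exact ⟨hp.1.2.pos, by omega⟩
    rw [Nat.primesLE_card_eq_primeCounting, ← hP] at h2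
    rw [Nat.card_Ioc] at h3
    omega
  have hP3 : P.card ≤ Q := by
    have : P.card ≤ (Ioc 0 Q).card :=
      card_le_card fun p hp => mem_Ioc.mpr ⟨(hP1 p hp).1.pos, (hP1 p hp).2.2⟩
    simpa using this
  have hQ : (2 : ℝ) ≤ Q := by exact_mod_cast (by omega : 2 ≤ Q)
  set J := P ×ˢ (range K ×ˢ Ioc 0 K) with hJ
  set wd : Fin 2 → ℝ := ![1 / (100 * (Q : ℝ) ^ 2), 1 / (100 * (Q : ℝ) ^ 4)] with hwd
  set bx : ℕ × ℕ × ℕ → Set (Fin 2 → ℝ) := fun i => box ![i.2.1 / i.1, i.2.2 / i.1] wd with hbx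
  have hmem : ∀ i α, α ∈ bx i ↔ ((i.2.1 : ℝ) / i.1 ≤ α 0 ∧
      α 0 < i.2.1 / i.1 + 1 / (100 * (Q : ℝ) ^ 2)) ∧
      ((i.2.2 : ℝ) / i.1 ≤ α 1 ∧ α 1 < i.2.2 / i.1 + 1 / (100 * (Q : ℝ) ^ 4)) := fun i α => mem_box
  have hw : 1 / (100 * (Q : ℝ) ^ 4) ≤ 1 / (100 * (Q : ℝ) ^ 2) := by
    gcongr <;> linarith
  have ht : ∀ p q : ℕ, p ≤ Q → q ≤ Q → 1 / (100 * (Q : ℝ) ^ 2) * (p * q) ≤ 1 := by
    intro p q hp hq
    have h2 : (p : ℝ) * q ≤ Q * Q := by exact_mod_cast Nat.mul_le_mul hp hq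
    rw [one_div_mul_eq_div, div_le_one (by positivity)]
    nlinarith
  have hJ1 : ∀ i ∈ J, (i.1.Prime ∧ K < i.1 ∧ i.1 ≤ Q) ∧ i.2.1 < K ∧ 0 < i.2.2 ∧ i.2.2 ≤ K := by
    intro i hi
    simp only [hJ, mem_product, mem_range, mem_Ioc] at hi
    exact ⟨hP1 _ hi.1, hi.2⟩
  have hdis : Set.PairwiseDisjoint (J : Set (ℕ × ℕ × ℕ)) bx := by
    rintro ⟨p, a, b⟩ hi ⟨q, a', b'⟩ hj hne
    rw [Function.onFun, Set.disjoint_left]
    intro α h2 h3
    obtain ⟨⟨p1, p2, p3⟩, -, p5, p6⟩ := hJ1 _ hi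
    obtain ⟨⟨q1, q2, q3⟩, -, q5, q6⟩ := hJ1 _ hj
    rw [hmem] at h2 h3
    simp only at *
    have e1 := cross p1.pos q1.pos (ht p q p3 q3) h2.2.1 (h3.2.2.trans_le (by gcongr))
    have e2 := cross q1.pos p1.pos (ht q p q3 p3) h3.2.1 (h2.2.2.trans_le (by gcongr))
    have e3 := cross p1.pos q1.pos (ht p q p3 q3) h2.1.1 h3.1.2
    have e4 := cross q1.pos p1.pos (ht q p q3 p3) h3.1.1 h2.1.2
    have e5 : p = q := by
      have : p ∣ b * q := ⟨b', by rw [le_antisymm e1 e2, mul_comm]⟩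
      rcases (Nat.Prime.dvd_mul p1).mp this with e | e
      · have := Nat.le_of_dvd p5 e; omega
      · exact (Nat.prime_dvd_prime_iff_eq p1 q1).mp e
    subst e5
    apply hne
    rw [Nat.eq_of_mul_eq_mul_right p1.pos (le_antisymm e1 e2),
      Nat.eq_of_mul_eq_mul_right p1.pos (le_antisymm e3 e4)]
  set B0 := ⋃ i ∈ J, bx i with hB0
  have hm0 : MeasurableSet B0 := J.measurableSet_biUnion fun i _ => box_meas _ _
  have hsub : B0 ∪ box 0 ![δ, 1] ⊆ Set.pi Set.univ (fun _ => Set.Ico (0 : ℝ) 1) := by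
    have hk : ∀ p a : ℕ, a < p → p ≤ Q → ∀ x : ℝ, x < a / p + 1 / (100 * (Q : ℝ) ^ 2) → x < 1 := by
      intro p a h2 h3 x h4
      by_contra h5
      have := cross (a := 1) (p := 1) one_pos (by omega : 0 < p) (ht 1 p (by omega) h3)
        (by simpa using h5) h4
      omega
    rintro α (h2 | h2)
    · obtain ⟨i, hi, h3⟩ := Set.mem_iUnion₂.mp h2
      obtain ⟨⟨p1, p2, p3⟩, p4, p5, p6⟩ := hJ1 _ hi
      rw [hmem] at h3
      simp only [Set.mem_univ_pi, Fin.forall_fin_two, Set.mem_Ico]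
      exact ⟨⟨le_trans (by positivity) h3.1.1, hk _ _ (by omega) p3 _ h3.1.2⟩,
        le_trans (by positivity) h3.2.1, hk _ _ (by omega) p3 _ (h3.2.2.trans_le (by gcongr))⟩
    · rw [mem_box] at h2
      simp only [Set.mem_univ_pi, Fin.forall_fin_two, Set.mem_Ico]
      simp only [Pi.zero_apply, zero_add, Matrix.cons_val_zero, Matrix.cons_val_one] at h2
      exact ⟨⟨h2.1.1, by linarith [h2.1.2]⟩, h2.2⟩
  have hsub' : B0 ∪ box 0 ![δ, 1] ⊆ Set.Icc 0 1 := fun α h =>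
    ⟨fun j => (hsub h j trivial).1, fun j => (hsub h j trivial).2.le⟩
  have hfin : volume (B0 ∪ box 0 ![δ, 1]) ≠ ⊤ :=
    ((measure_mono hsub').trans_lt isCompact_Icc.measure_lt_top).ne
  have hfin0 : volume B0 ≠ ⊤ := measure_ne_top_of_subset Set.subset_union_left hfin
  have hv0 : volume.real B0 = (P.card * (K * K) : ℕ) / (10000 * (Q : ℝ) ^ 6) := by
    rw [hB0, measureReal_biUnion_finset hdis (fun i _ => box_meas _ _)
      (fun i hi => measure_ne_top_of_subset (Set.subset_biUnion_of_mem (u := bx) hi) hfin0),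
      sum_congr rfl (fun i _ => box_vol _ wd (by simp [hwd]) (by simp [hwd])), sum_const, hJ]
    simp only [card_product, card_range, Nat.card_Ioc, nsmul_eq_mul, hwd, Matrix.cons_val_zero,
      Matrix.cons_val_one, Nat.sub_zero]
    field_simp
    norm_num
  have hv1 : volume.real (box 0 ![δ, 1]) = δ := by rw [box_vol] <;> simp [h0]
  have hc : Continuous fun α => ‖F (Q ^ 2) α‖ ^ r := by
    apply Continuous.rpow_const _ (fun _ => Or.inr hr)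
    unfold F
    fun_prop
  have hint : IntegrableOn (fun α => ‖F (Q ^ 2) α‖ ^ r) (B0 ∪ box 0 ![δ, 1]) :=
    (hc.continuousOn.integrableOn_compact isCompact_Icc).mono_set hsub'
  refine ⟨B0 ∪ box 0 ![δ, 1], hm0.union (box_meas _ _), hsub, ?_, ?_, ?_⟩
  · exact hv1.ge.trans (measureReal_mono Set.subset_union_right hfin)
  · refine (measureReal_union_le _ _).trans ?_
    rw [hv1, hv0, add_comm, add_le_add_iff_left, div_le_div_iff₀ (by positivity) (by positivity)]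
    have : ((P.card * (K * K) : ℕ) : ℝ) ≤ Q * (Q * Q) := by
      exact_mod_cast Nat.mul_le_mul hP3 (Nat.mul_le_mul (by omega) (by omega))
    have h2 := mul_le_mul_of_nonneg_right this (by positivity : 0 ≤ (Q : ℝ) ^ 3)
    have h3 : 0 ≤ (Q : ℝ) ^ 6 := by positivity
    nlinarith
  · refine le_trans ?_ (setIntegral_mono_set hint (ae_of_all _ fun _ => by positivity)
      Set.subset_union_left.eventuallyLE)
    refine le_trans ?_ (setIntegral_ge_of_const_le_real (c := L ^ r) hm0 hfin0 ?_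
      (hint.mono_set Set.subset_union_left))
    · rw [hv0]
      gcongr
      have : K ^ 3 ≤ P.card * (K * K) := by
        rw [pow_succ', sq]; exact Nat.mul_le_mul_right _ hP2
      exact_mod_cast this
    · intro α h2
      obtain ⟨i, hi, h3⟩ := Set.mem_iUnion₂.mp h2
      obtain ⟨⟨p1, p2, p3⟩, p4, p5, p6⟩ := hJ1 _ hi
      rw [hmem] at h3
      have h4 := lower i.1 i.2.1 i.2.2 (Q ^ 2) p1 (by omega) p5 (by omega)
        (Nat.one_le_pow _ _ (by omega)) α (α 0 - i.2.1 / i.1) (α 1 - i.2.2 / i.1)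
        (by linarith [h3.1.1]) (by linarith [h3.2.1])
        (by
          push_cast
          rw [← le_div_iff₀ (by positivity), div_div]
          linarith [h3.1.2])
        (by
          push_cast
          rw [← le_div_iff₀ (by positivity), div_div, ← pow_mul]
          linarith [h3.2.2]) (by ring) (by ring)
      apply Real.rpow_le_rpow hL0 (hL.trans (le_trans ?_ h4)) hr
      have h5 : (i.1 : ℝ) ≤ Q := by exact_mod_cast p3
      have h6 : (0 : ℝ) < i.1 := by exact_mod_cast p1.pos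
      push_cast
      gcongr

lemma pw (w : ℝ) (hw : 0 ≤ w) (m n : ℕ) (y : ℝ) (h : m * y = n) : (w ^ m) ^ y = w ^ n := by
  rw [← Real.rpow_natCast, ← Real.rpow_mul hw, h, Real.rpow_natCast]

lemma pi_lb (w : ℕ) (hw : 2 ≤ w) : (w : ℝ) ^ 31 / 256 ≤ ((w ^ 32).primeCounting / 2 : ℕ) := by
  have h1 := Chebyshev.pi_ge (w ^ 32)
  have hw' : (2 : ℝ) ≤ w := by exact_mod_cast hw
  have h2 : Real.log w ≤ w := (Real.log_le_sub_one_of_pos (by linarith)).trans (by linarith)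
  have h3 : 0 < Real.log w := Real.log_pos (by linarith)
  have h4 : (1 : ℝ) ≤ (w : ℝ) ^ 32 := one_le_pow₀ (by linarith)
  have h5 : Real.log ((w : ℝ) ^ 32 + 1) ≤ 1 + 32 * w := by
    calc _ ≤ Real.log (2 * (w : ℝ) ^ 32) := Real.log_le_log (by positivity) (by linarith)
      _ = Real.log 2 + 32 * Real.log w := by
        rw [Real.log_mul (by norm_num) (by positivity), Real.log_pow]; norm_num
      _ ≤ _ := by linarith [Real.log_two_lt_d9]
  push_cast at h1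
  rw [Real.log_pow, div_le_iff₀ (by positivity)] at h1
  set π := (w ^ 32).primeCounting
  have h6 : (π : ℝ) ≤ 2 * (π / 2 : ℕ) + 1 := by exact_mod_cast (by omega : π ≤ 2 * (π / 2) + 1)
  have h7 : (π : ℝ) * (32 * Real.log w) ≤ (2 * (π / 2 : ℕ) + 1) * (32 * w) := by gcongr
  have h8 : (2 : ℝ) ^ 31 ≤ (w : ℝ) ^ 31 := by gcongr
  have h9 : (w : ℝ) ^ 32 = w ^ 31 * w := by ring
  have h10 := mul_le_mul_of_nonneg_left Real.log_two_gt_d9.le (by positivity : 0 ≤ (w : ℝ) ^ 32)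
  push_cast at h1
  apply le_of_mul_le_mul_right _ (by linarith : (0 : ℝ) < w)
  nlinarith

theorem main : ¬ ∃ C : ℝ, ∀ X : ℕ, 1 ≤ X → ∀ B : Set (Fin 2 → ℝ), MeasurableSet B →
    B ⊆ Set.pi Set.univ (fun _ => Set.Ico (0:ℝ) 1) →
    1 * (X:ℝ) ^ (1 - ((2 : ℕ):ℝ) * (((2 : ℕ):ℝ) + 1) / 4) ≤ (volume B).toReal →
    ∫ α in B, ‖F X α‖ ^ (2 * (11 / 4 : ℝ)) ≤ C * (X:ℝ) ^ (1 / 64 : ℝ) *
      ((X:ℝ) ^ (11 / 4 : ℝ) * (volume B).toReal
        + (X:ℝ) ^ (2 * (11 / 4 : ℝ) - ((2 : ℕ):ℝ) * (((2 : ℕ):ℝ) + 1) / 2)) := by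
  rintro ⟨C, hC⟩
  obtain ⟨w, hw⟩ := exists_nat_gt (2 + 3 * (256 ^ 3 * 2 ^ 11 * 10000) * |C|)
  have hC0 := abs_nonneg C
  have hw2 : (2 : ℝ) ≤ w := by linarith
  have hw0 : (0 : ℝ) < w := by linarith
  have hw1 : (1 : ℝ) ≤ w := by linarith
  have h1 := pi_lb w (by exact_mod_cast hw2)
  set K := (w ^ 32).primeCounting / 2 with hK
  have h8 : (2 : ℝ) ^ 16 ≤ (w : ℝ) ^ 16 := by gcongr
  have h9 : (2 : ℝ) ^ 31 ≤ (w : ℝ) ^ 31 := by gcongr
  obtain ⟨B, b1, b2, b3, b4, b5⟩ := exB (w ^ 32) K (by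
      have : (2 : ℝ) ≤ K := by linarith
      exact_mod_cast this) (Nat.mul_div_le _ _) (1 / (w : ℝ) ^ 32) (by positivity)
    (by rw [div_le_one (by positivity)]; exact one_le_pow₀ hw1) (((w : ℝ) ^ 24 / 2) ^ 2)
    (by positivity) (by
      push_cast
      rw [show (w : ℝ) ^ 32 = ((w : ℝ) ^ 16) ^ 2 by ring, Real.sqrt_sq (by positivity)]
      have e : (((w : ℝ) ^ 16) ^ 2) ^ 2 / (2 * (w : ℝ) ^ 16) = ((w : ℝ) ^ 16) ^ 3 / 2 := by
        field_simp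
      rw [e, show ((w : ℝ) ^ 24 / 2) ^ 2 = ((w : ℝ) ^ 16) ^ 3 / 4 by ring]
      generalize (w : ℝ) ^ 16 = y at h8
      nlinarith [sq_nonneg y]) (2 * (11 / 4 : ℝ)) (by norm_num)
  have eX : (((w ^ 32) ^ 2 : ℕ) : ℝ) = (w : ℝ) ^ 64 := by push_cast; ring
  have h2 := hC ((w ^ 32) ^ 2) (Nat.one_le_pow _ _ (pow_pos (by exact_mod_cast hw0) _)) B b1 b2 (by
    refine le_trans (le_of_eq ?_) b3
    rw [eX, one_mul, show (1 - ((2 : ℕ):ℝ) * (((2 : ℕ):ℝ) + 1) / 4) = -(1 / 2) by norm_num,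
      Real.rpow_neg (by positivity), pw w hw0.le 64 32 _ (by norm_num), one_div])
  rw [eX, pw w hw0.le 64 1 _ (by norm_num), pw w hw0.le 64 176 _ (by norm_num),
    pw w hw0.le 64 160 _ (by norm_num), ← measureReal_def] at h2
  rw [pw _ (by positivity) 2 11 _ (by norm_num)] at b5
  push_cast at b4 b5
  have h3 : (w : ℝ) ^ 176 * volume.real B ≤ 2 * (w : ℝ) ^ 160 := by
    have h4 : 1 / ((w : ℝ) ^ 32) ^ 3 ≤ 1 / (w : ℝ) ^ 16 := by
      rw [← pow_mul]; gcongr; norm_num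
    have h5 : 1 / ((w : ℝ) ^ 32) ≤ 1 / (w : ℝ) ^ 16 := by gcongr; norm_num
    calc _ ≤ (w : ℝ) ^ 176 * (1 / (w : ℝ) ^ 16 + 1 / (w : ℝ) ^ 16) := by gcongr; linarith
      _ = _ := by field_simp; norm_num
  have h4 : C * (w : ℝ) ^ 1 * ((w : ℝ) ^ 176 * volume.real B + (w : ℝ) ^ 160) ≤
      |C| * (w : ℝ) ^ 1 * (3 * (w : ℝ) ^ 160) := by
    have hv : 0 ≤ volume.real B := measureReal_nonneg
    exact mul_le_mul (mul_le_mul_of_nonneg_right (le_abs_self C) (pow_nonneg hw0.le _)) (by linarith)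
      (add_nonneg (mul_nonneg (pow_nonneg hw0.le _) hv) (pow_nonneg hw0.le _))
      (mul_nonneg hC0 (pow_nonneg hw0.le _))
  have h5 : ((w : ℝ) ^ 24 / 2) ^ 11 * (((w : ℝ) ^ 31 / 256) ^ 3 / (10000 * ((w : ℝ) ^ 32) ^ 6)) ≤
      ((w : ℝ) ^ 24 / 2) ^ 11 * ((K : ℝ) ^ 3 / (10000 * ((w : ℝ) ^ 32) ^ 6)) := by gcongr
  have h6 := h5.trans (b5.trans (h2.trans h4))
  have e : ((w : ℝ) ^ 24 / 2) ^ 11 * (((w : ℝ) ^ 31 / 256) ^ 3 / (10000 * ((w : ℝ) ^ 32) ^ 6)) =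
      (w : ℝ) ^ 161 * (w ^ 4 / (256 ^ 3 * 2 ^ 11 * 10000)) := by
    rw [← mul_div_assoc, div_eq_iff (by positivity)]; ring
  rw [e, show |C| * (w : ℝ) ^ 1 * (3 * (w : ℝ) ^ 160) = (w : ℝ) ^ 161 * (3 * |C|) by ring] at h6
  have h7 := le_of_mul_le_mul_left h6 (by positivity)
  have h10 : (w : ℝ) ≤ w ^ 4 := le_self_pow₀ hw1 (by norm_num)
  rw [div_le_iff₀ (by positivity)] at h7
  linarith

end Pool.Agent.H.MP_ccba9a_nt
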